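import Pool.Agent.K.MP_862e21_al.C1

namespace Pool.Agent.Results.MP_862e21_al.AllGroupsLarge

open Pool.Agent.P.MP_862e21_al

theorem result : ∃ q0 : ℕ, ∀ (F : Type) [Field F] [Fintype F] [DecidableEq F]
    [DecidableEq (OnePoint F)], q0 ≤ Fintype.card F →
    ∀ G : Subgroup (Equiv.Perm (OnePoint F)),
      (∀ M : GL (Fin 2) F, Matrix.GeneralLinearGroup.det M = 1 → MulAction.toPerm M ∈ G) →
      (∀ g ∈ G, ∃ (M : GL (Fin 2) F) (σ : F ≃+* F), ∀ x, g x = M • OnePoint.map σ x) →
      (((Fintype.card F).Prime ∧
          (Fintype.card F % 4 = 1 → ∃ g ∈ G, ∀ M : GL (Fin 2) F,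
            Matrix.GeneralLinearGroup.det M = 1 → g ≠ MulAction.toPerm M)) ∨
        ∃ p : ℕ, p.Prime ∧ Fintype.card F = 2 ^ p) →
      ((∀ S : Finset (OnePoint F), S.card = 4 →
          ∀ P : Finpartition (Finset.univ : Finset (OnePoint F)), P.parts.card = 4 →
            ∃ g ∈ G, ∀ X ∈ P.parts, (X ∩ S.image g).card = 1) ↔
        ∀ c c' : Fˣ, (c : F) + c' = 1 → Subgroup.closure ({-1, c, c'} : Set Fˣ) = ⊤) := by
  obtain ⟨q0, h0⟩ := core
  obtain ⟨q1, h1⟩ := psl_section
  refine ⟨max (max q0 q1) 3, ?_⟩
  intro F _ _ _ _ hq G hSL hG hc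
  have hq0 : q0 ≤ Fintype.card F := le_trans (le_trans (le_max_left _ _) (le_max_left _ _)) hq
  have hq1 : q1 ≤ Fintype.card F := le_trans (le_trans (le_max_right _ _) (le_max_left _ _)) hq
  have hq3 : 3 ≤ Fintype.card F := le_trans (le_max_right _ _) hq
  have hcore := h0 F hq0 (hc.imp_left And.left)
  have hsq : ∀ M : GL (Fin 2) F, SqDet M → MulAction.toPerm M ∈ G := by
    intro M hM
    obtain ⟨M', e1, e2⟩ := sq_sl hM
    have : (MulAction.toPerm M : Equiv.Perm (OnePoint F)) = MulAction.toPerm M' := by
      ext x; simp [e2]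
    rw [this]; exact hSL M' e1
  constructor
  · intro hut c c' hcc
    by_contra hne
    obtain ⟨P, hP, hno⟩ := necessity hcc hne
    have c1 : (c : F) ≠ 1 := by
      intro e
      rw [e] at hcc
      exact c'.ne_zero (by linear_combination hcc)
    obtain ⟨g, hg, hsec⟩ := hut (base (c : F)) (card_base c.ne_zero c1) P hP
    obtain ⟨M, σ, e⟩ := hG g hg
    refine hno M σ ?_
    have : (fun x => M • OnePoint.map σ x) = g := by funext x; exact (e x).symm
    rw [this]; exact hsec
  · intro hcrit S hS P hP
    have hgen : ∀ c : F, c ≠ 0 → c ≠ 1 → Gen c := by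
      intro c c0 c1
      have := gen_of_closure (c := Units.mk0 c c0) (c' := Units.mk0 (1 - c) (sub_ne_zero.mpr c1.symm))
        (by simp) (hcrit _ _ (by simp))
      simpa using this
    by_cases h3 : (Fintype.card F).Prime ∧ Fintype.card F % 4 = 3
    · obtain ⟨M, hM, hX⟩ := h1 F hq1 h3.1 h3.2 hgen S hS P hP
      exact ⟨MulAction.toPerm M, hSL M hM, hX⟩
    have hall : ∀ M : GL (Fin 2) F, MulAction.toPerm M ∈ G := by
      rcases hc with ⟨hp, h⟩ | ⟨p, _, e⟩
      · have h4 : Fintype.card F % 4 = 1 := by
          have := hp.eq_two_or_odd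
          have h5 : Fintype.card F % 4 ≠ 3 := fun e => h3 ⟨hp, e⟩
          omega
        obtain ⟨g, hg, hne⟩ := h h4
        obtain ⟨M0, σ, e⟩ := hG g hg
        have hσ : ∀ x : F, σ x = x := by
          intro x
          obtain ⟨y, rfl⟩ := (ZMod.ringEquivOfPrime F hp rfl).surjective x
          have : NeZero (Fintype.card F) := ⟨by omega⟩
          obtain ⟨n, rfl⟩ := ZMod.natCast_zmod_surjective y
          simp
        have e' : g = MulAction.toPerm M0 := by
          ext x
          rw [e x]
          induction x using OnePoint.rec with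
          | infty => simp
          | coe a => simp [hσ]
        have hM0 : ¬ SqDet M0 := by
          intro hM
          obtain ⟨M', e1, e2⟩ := sq_sl hM
          refine hne M' e1 ?_
          rw [e']
          ext x; simp [e2]
        intro M
        by_cases hM : SqDet M
        · exact hsq M hM
        · have : (MulAction.toPerm M : Equiv.Perm (OnePoint F)) =
              MulAction.toPerm (M * M0⁻¹) * g := by
            rw [e']
            ext x; simp [mul_smul]
          rw [this]
          exact G.mul_mem (hsq _ ((sqDet_mul M M0⁻¹).2 (by rw [sqDet_inv]; tauto))) hg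
      · intro M
        obtain ⟨M', h1, h2⟩ := sl_two (two_eq_zero e) M
        have : (MulAction.toPerm M : Equiv.Perm (OnePoint F)) = MulAction.toPerm M' := by
          ext x; simp [h2]
        rw [this]; exact hSL M' h1
    obtain ⟨M, c, c0, c1, rfl⟩ := three_trans S hS
    obtain ⟨M', hM'⟩ := rainbow c0 c1 (fun A B C h => hcore c A B C h (hgen c c0 c1)) P hP
    refine ⟨MulAction.toPerm (M' * M⁻¹), hall _, ?_⟩
    intro X hX
    have : Finset.image (MulAction.toPerm (M' * M⁻¹) : Equiv.Perm (OnePoint F))
        (Finset.image (fun x => M • x) (base c)) = Finset.image (fun x => M' • x) (base c) := by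
      rw [Finset.image_image]
      congr 1
      funext x
      simp [mul_smul]
    rw [this]; exact hM' X hX

end Pool.Agent.Results.MP_862e21_al.AllGroupsLarge
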